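import Mathlib
import Pool.Agent.Helper74.FB.PrimeArg

/-! # Clusters of representations `n = f(p₁) + p₂`

`f(x) = x² + b x + c`, `b` and `c` of opposite parity. For a positive proportion of the odd `n ≤ X` there are
`r` primes `p₁` in an interval of bounded length with `n - f(p₁)` prime; the primes `p₁` can be taken as small
as a power of `log X`, and there are many such intervals. -/

set_option autoImplicit false

namespace Pool.Agent.Results.MP_d9bc60_nt.ClustersOfRepresentations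

open Finset

/-- `f(p) + q = n` for a prime `q` -/
def Rep (b c : ℤ) (n p : ℕ) : Prop := ∃ q : ℕ, q.Prime ∧ (n : ℤ) = ((p : ℤ) ^ 2 + b * p + c) + q

open Classical in
/-- the `m ∈ [Y / 16, Y]` such that for all `h ∈ P` the number `m + h` is a prime with `n = f(m + h) + q`,
`q` prime -/
noncomputable def clusters (b c : ℤ) (P : Finset ℕ) (n Y : ℕ) : Finset ℕ :=
  (Icc 1 Y).filter (fun m => Y ≤ 16 * m ∧ ∀ h ∈ P, (m + h).Prime ∧ Rep b c n (m + h))

/-- there is a set `P ⊆ [1, H]` of `r` shifts with at least `Y / (log X) ^ A` clusters -/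
def HasClusters (b c : ℤ) (r H A X Y n : ℕ) : Prop :=
  ∃ P ⊆ Icc 1 H, P.card = r ∧ (Y : ℝ) / Real.log X ^ A ≤ (((clusters b c P n Y).card : ℕ) : ℝ)

open Classical in
/-- **Clusters of representations `n = f(p₁) + p₂`.** -/
theorem result (r : ℕ) (hr : 1 ≤ r) : ∃ H A : ℕ, ∀ b c : ℤ, (Even b ↔ ¬ Even c) →
    ∃ κ : ℝ, 0 < κ ∧ ∃ X₀ : ℕ, ∀ X : ℕ, X₀ ≤ X → ∀ Y : ℕ,
      Real.log X ^ A ≤ Y → (Y : ℝ) ^ 2 ≤ κ * X →
      κ * X ≤ (({n ∈ Icc 1 X | Odd n ∧ HasClusters b c r H A X Y n}.card : ℕ) : ℝ) := by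
  obtain ⟨H, A, h1⟩ := Pool.Agent.Helper74.FB.primeG r hr
  refine ⟨H, A, fun b c hbc => ?_⟩
  set Q : Polynomial ℤ := -(Polynomial.X ^ 2 + Polynomial.C b * Polynomial.X + Polynomial.C c) with hQ
  have hev : ∀ x : ℤ, Q.eval x = -(x ^ 2 + b * x + c) := by
    intro x
    simp [hQ]
  have hdeg : Q.natDegree = 2 := by
    rw [hQ, Polynomial.natDegree_neg]
    compute_degree!
  obtain ⟨κ, hκ, X₀, h2⟩ := h1 Q (by rw [hdeg]; norm_num)
  refine ⟨κ, hκ, X₀, fun X hX Y hY1 hY2 => ?_⟩
  refine (h2 X hX Y hY1 (by rw [hdeg]; exact hY2)).trans ?_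
  rw [Nat.cast_le]
  apply card_le_card
  intro n hn
  obtain ⟨hn1, hn2, hn3, P, hP, hPc, hcl⟩ := mem_filter.1 hn
  refine mem_filter.2 ⟨hn1, ?_, P, hP, hPc, hcl.trans ?_⟩
  · rw [hev] at hn3
    have h3 : ¬ Even ((n : ℤ) + -(1 ^ 2 + b * 1 + c)) := by
      rw [even_iff_two_dvd]
      exact hn3
    have h4 : Odd (n : ℤ) := by
      rw [← Int.not_even_iff_odd]
      intro h5
      apply h3
      have h6 : Even (-(1 ^ 2 + b * 1 + c)) := by
        rw [even_neg, one_pow, mul_one]
        rcases Int.even_or_odd b with hb | hb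
        · have hc : Odd c := Int.not_even_iff_odd.1 (hbc.1 hb)
          have h7 : Odd (1 + b) := odd_one.add_even hb
          exact h7.add_odd hc
        · have hc : Even c := by
            by_contra hc
            exact (Int.not_even_iff_odd.2 hb) (hbc.2 hc)
          have h7 : Even (1 + b) := odd_one.add_odd hb
          exact h7.add hc
      exact h5.add h6
    exact_mod_cast h4
  · rw [Nat.cast_le]
    apply card_le_card
    intro m hm
    obtain ⟨hm1, hm2, hm3⟩ := mem_filter.1 hm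
    unfold clusters
    refine mem_filter.2 ⟨hm1, hm2, fun h hh => ?_⟩
    obtain ⟨h4, q, hq, hq2⟩ := hm3 h hh
    refine ⟨h4, q, hq, ?_⟩
    rw [hq2, hev]
    push_cast
    ring

end Pool.Agent.Results.MP_d9bc60_nt.ClustersOfRepresentations
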