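import Mathlib
import Pool.Agent.Helper74.FB.JQPrime

/-! # Common primes `p` in representations `n j = f j (p) + q j`, with almost prime neighbours

`f j (x) = x² + b j x + c j`, `b j` and `c j` of opposite parity, `j ≤ J`; `S` is an admissible set of shifts with a
prescribed element `h₀`. For a positive proportion of the `J`-tuples of odd `n j ≤ X` there are primes `p = x + h₀`
such that all the `n j - f j (p)` are primes and for `r` further shifts `h ∈ S` the numbers `x + h` and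
`n j - f j (x + h)` have at most two prime factors. -/

set_option autoImplicit false

namespace Pool.Agent.Results.MP_d9bc60_nt.CommonPrimesWithNeighbours

open Finset

/-- `f(x) = x² + b x + c` -/
def f (b c x : ℤ) : ℤ := x ^ 2 + b * x + c

/-- the integer `z` is `> 1` and has at most two prime factors, counted with multiplicity -/
def AlmostPrime (z : ℤ) : Prop := ∃ q : ℕ, 1 < q ∧ (q : ℤ) = z ∧ q.primeFactorsList.length ≤ 2

/-- the set `S` of shifts is admissible: for every prime `p` there are a class `v` and classes `w j` such that none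
of the numbers `v + h` and `w j - f j (v + h)`, `h ∈ S`, is divisible by `p` -/
def Admissible {J : ℕ} (b c : Fin J → ℤ) (S : Finset ℕ) : Prop :=
  ∀ p : ℕ, p.Prime → ∃ v : ℤ, (∀ h ∈ S, ¬ (p : ℤ) ∣ v + h) ∧
    ∀ j, ∃ w : ℤ, ∀ h ∈ S, ¬ (p : ℤ) ∣ w - f (b j) (c j) (v + h)

/-- `p` is prime and all the `n j = f j (p) + q j` with primes `q j` -/
def Rep {J : ℕ} (b c : Fin J → ℤ) (n : Fin J → ℕ) (p : ℕ) : Prop :=
  p.Prime ∧ ∀ j, ∃ q : ℕ, q.Prime ∧ (n j : ℤ) = f (b j) (c j) p + q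

open Classical in
/-- the `x ∈ [Y / 16, Y]` such that `x + h₀` is a prime with all `n j - f j (x + h₀)` prime and for all `h ∈ T` the
numbers `x + h` and `n j - f j (x + h)` have at most two prime factors -/
noncomputable def cluster {J : ℕ} (b c : Fin J → ℤ) (h₀ : ℕ) (T : Finset ℕ) (n : Fin J → ℕ) (Y : ℕ) :
    Finset ℕ :=
  (Icc 1 Y).filter (fun x : ℕ => Y ≤ 16 * x ∧ Rep b c n (x + h₀) ∧
    ∀ h ∈ T, AlmostPrime ((x + h : ℕ) : ℤ) ∧ ∀ j, AlmostPrime (n j - f (b j) (c j) ((x + h : ℕ) : ℤ)))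

/-- there are `r` shifts in `S` different from `h₀` with at least `Y / (log X) ^ A` clusters -/
def HasClusters {J : ℕ} (b c : Fin J → ℤ) (S : Finset ℕ) (h₀ A r X Y : ℕ) (n : Fin J → ℕ) : Prop :=
  ∃ T ⊆ S.erase h₀, T.card = r ∧ (Y : ℝ) / Real.log X ^ A ≤ (((cluster b c h₀ T n Y).card : ℕ) : ℝ)

open Classical in
/-- **Common primes in the representations, with almost prime neighbours.** -/
theorem result (J r : ℕ) : ∃ K A : ℕ, ∀ b c : Fin J → ℤ, (∀ j, Even (b j) ↔ ¬ Even (c j)) →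
    ∀ S : Finset ℕ, K ≤ S.card → Admissible b c S → ∀ h₀ ∈ S,
    ∃ κ : ℝ, 0 < κ ∧ ∃ X₀ : ℕ, ∀ X : ℕ, X₀ ≤ X → ∀ Y : ℕ, Real.log X ^ A ≤ Y → (Y : ℝ) ^ 2 ≤ κ * X →
      κ * (X : ℝ) ^ J ≤
        (({n ∈ Fintype.piFinset (fun _ : Fin J => Icc 1 X) |
          (∀ j, Odd (n j)) ∧ HasClusters b c S h₀ A r X Y n}.card : ℕ) : ℝ) := by
  obtain ⟨K, A, h1⟩ := Pool.Agent.Helper74.FB.primeJQ J r
  refine ⟨K, A + 1, fun b c hbc S hS hadm h₀ hh₀ => ?_⟩
  obtain ⟨Q, hQ⟩ : ∃ Q : Fin J → Polynomial ℤ, Q = fun j =>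
    -(Polynomial.X ^ 2 + Polynomial.C (b j) * Polynomial.X + Polynomial.C (c j)) := ⟨_, rfl⟩
  have hev : ∀ j, ∀ x : ℤ, (Q j).eval x = -f (b j) (c j) x := by
    intro j x
    simp [hQ, f]
  have hdeg : ∀ j, (Q j).natDegree = 2 := by
    intro j
    rw [hQ]
    simp only
    rw [Polynomial.natDegree_neg]
    compute_degree!
  obtain ⟨κ, hκ, X₀, h3⟩ := h1 Q (fun j => by rw [hdeg j]; norm_num) S hS h₀ hh₀ (by
      intro p hp
      obtain ⟨v, hv, hw⟩ := hadm p hp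
      refine ⟨v, hv, fun j => ?_⟩
      obtain ⟨w, hw'⟩ := hw j
      refine ⟨w, fun h hh hd => hw' h hh ?_⟩
      rw [hev] at hd
      rw [sub_eq_add_neg]
      exact hd)
  have tN : Filter.Tendsto (fun N : ℕ => (N : ℝ)) Filter.atTop Filter.atTop :=
    tendsto_natCast_atTop_atTop
  have hlog : Filter.Tendsto (fun N : ℕ => Real.log (N : ℝ)) Filter.atTop Filter.atTop :=
    Real.tendsto_log_atTop.comp tN
  obtain ⟨X₁, hX₁⟩ := Filter.eventually_atTop.1 (hlog.eventually_ge_atTop (48 + h₀))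
  obtain ⟨B, hB1, hB⟩ : ∃ B : ℕ, 1 ≤ B ∧ ∀ j, 1 + (b j).natAbs + (c j).natAbs ≤ B := by
    refine ⟨1 + ∑ j, (1 + (b j).natAbs + (c j).natAbs), by omega, fun j => ?_⟩
    have := single_le_sum (f := fun j => 1 + (b j).natAbs + (c j).natAbs) (fun _ _ => Nat.zero_le _)
      (mem_univ j)
    omega
  have hB1r : (1 : ℝ) ≤ B := by exact_mod_cast hB1
  have hBpos : (0 : ℝ) < B := by linarith
  refine ⟨min κ (1 / (256 * B)), lt_min hκ (by positivity), max X₀ X₁, fun X hX Y hY1 hY2 => ?_⟩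
  have hX0 : (0 : ℝ) ≤ X := Nat.cast_nonneg X
  have hlogX : 48 + h₀ ≤ Real.log X := hX₁ X ((le_max_right _ _).trans hX)
  have hh₀r : (0 : ℝ) ≤ h₀ := Nat.cast_nonneg _
  have hAA : Real.log X ^ A ≤ Real.log X ^ (A + 1) := pow_le_pow_right₀ (by linarith) (by omega)
  have hY1' : Real.log X ^ A ≤ Y := hAA.trans hY1
  have hY48 : 48 + h₀ ≤ Y := by
    have h4 : Real.log X ≤ Real.log X ^ (A + 1) := by
      calc Real.log X = Real.log X ^ 1 := (pow_one _).symm
        _ ≤ _ := pow_le_pow_right₀ (by linarith) (by omega)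
    have : (48 + h₀ : ℝ) ≤ Y := by linarith
    exact_mod_cast this
  have hYκ : (Y : ℝ) ^ 2 ≤ κ * X := hY2.trans (mul_le_mul_of_nonneg_right (min_le_left _ _) hX0)
  have hYκ1 : (Y : ℝ) ≤ κ * X := by
    refine le_trans ?_ hYκ
    have : (1 : ℝ) ≤ Y := by exact_mod_cast (by omega : 1 ≤ Y)
    nlinarith
  have hY256 : 256 * B * Y ^ 2 ≤ X := by
    have h3 : (Y : ℝ) ^ 2 ≤ 1 / (256 * B) * X :=
      hY2.trans (mul_le_mul_of_nonneg_right (min_le_right _ _) hX0)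
    have h4 : (256 : ℝ) * B * Y ^ 2 ≤ X := by
      calc (256 : ℝ) * B * Y ^ 2 ≤ 256 * B * (1 / (256 * B) * X) :=
            mul_le_mul_of_nonneg_left h3 (by positivity)
        _ = X := by field_simp
    exact_mod_cast h4
  refine (mul_le_mul_of_nonneg_right (min_le_left _ _) (by positivity)).trans
    ((h3 X ((le_max_left _ _).trans hX) Y hY1' hYκ1 (fun j => by rw [hdeg j]; exact hYκ)).trans ?_)
  rw [Nat.cast_le]
  apply card_le_card
  intro N hN
  obtain ⟨hN1, hN2, T, hT, hTc, hcl⟩ := mem_filter.1 hN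
  have hLpos : 0 < Real.log X := by linarith
  have hYpos : (0 : ℝ) < Y := by exact_mod_cast (by omega : 0 < Y)
  have hcl2 : (Y : ℝ) / Real.log X ^ (A + 1) ≤ (((cluster b c h₀ T N Y).card : ℕ) : ℝ) := by
    refine (div_le_div_of_nonneg_left hYpos.le (by positivity) hAA).trans (hcl.trans ?_)
    rw [Nat.cast_le]
    apply card_le_card
    intro x hx
    obtain ⟨hx1, hx2, hx3, hx4, hx5⟩ := mem_filter.1 hx
    unfold cluster
    refine mem_filter.2 ⟨hx1, hx2, ⟨hx3, fun j => ?_⟩, fun h hh => ⟨?_, fun j => ?_⟩⟩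
    · obtain ⟨q, hq, hq2⟩ := hx4 j
      rw [hev] at hq2
      refine ⟨q, hq, ?_⟩
      push_cast
      linarith
    · obtain ⟨q, hq, hq2, hq3⟩ := (hx5 h hh).1
      refine ⟨q, hq, ?_, hq3⟩
      rw [hq2]
      push_cast
      ring
    · obtain ⟨q, hq, hq2, hq3⟩ := (hx5 h hh).2 j
      rw [hev] at hq2
      refine ⟨q, hq, ?_, hq3⟩
      rw [hq2]
      push_cast
      ring
  refine mem_filter.2 ⟨hN1, ?_, T, hT, hTc, hcl2⟩
  have hpos : 0 < (((cluster b c h₀ T N Y).card : ℕ) : ℝ) := lt_of_lt_of_le (by positivity) hcl2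
  obtain ⟨x, hx⟩ := card_pos.1 (by exact_mod_cast hpos : 0 < (cluster b c h₀ T N Y).card)
  unfold cluster at hx
  obtain ⟨hx1, hx2, ⟨hp, hq⟩, -⟩ := mem_filter.1 hx
  have hx4 := (mem_Icc.1 hx1).2
  intro j
  obtain ⟨q, hq1, hq2⟩ := hq j
  obtain ⟨p, hpd⟩ : ∃ p : ℕ, p = x + h₀ := ⟨_, rfl⟩
  rw [← hpd] at hp hq2
  have hp2Y : p ≤ 2 * Y := by omega
  have hp3 : 3 ≤ p := by omega
  have hpo : Odd p := hp.odd_of_ne_two (by omega)
  have hfb : f (b j) (c j) p ≤ 4 * B * (Y : ℤ) ^ 2 := by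
    have e1 : (1 : ℤ) ≤ p := by exact_mod_cast (by omega : 1 ≤ p)
    have e2 : (p : ℤ) ≤ 2 * Y := by exact_mod_cast hp2Y
    have e3 : b j ≤ |b j| := le_abs_self _
    have e4 : c j ≤ |c j| := le_abs_self _
    have e5 : 1 + |b j| + |c j| ≤ (B : ℤ) := by
      rw [Int.abs_eq_natAbs, Int.abs_eq_natAbs]
      exact_mod_cast hB j
    have e6 : (p : ℤ) ^ 2 ≤ 4 * (Y : ℤ) ^ 2 := by nlinarith
    have e9 : (1 : ℤ) ≤ (p : ℤ) ^ 2 := by nlinarith
    have e7 : b j * p ≤ |b j| * (p : ℤ) ^ 2 := by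
      calc b j * p ≤ |b j| * p := mul_le_mul_of_nonneg_right e3 (by linarith)
        _ ≤ |b j| * (p : ℤ) ^ 2 := mul_le_mul_of_nonneg_left (by nlinarith) (abs_nonneg _)
    have e8 : c j ≤ |c j| * (p : ℤ) ^ 2 := by
      calc c j ≤ |c j| * 1 := by rw [mul_one]; exact e4
        _ ≤ |c j| * (p : ℤ) ^ 2 := mul_le_mul_of_nonneg_left e9 (abs_nonneg _)
    unfold f
    calc (p : ℤ) ^ 2 + b j * p + c j ≤ (1 + |b j| + |c j|) * (p : ℤ) ^ 2 := by linarith
      _ ≤ B * (p : ℤ) ^ 2 := mul_le_mul_of_nonneg_right e5 (by positivity)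
      _ ≤ B * (4 * (Y : ℤ) ^ 2) := mul_le_mul_of_nonneg_left e6 (by positivity)
      _ = 4 * B * (Y : ℤ) ^ 2 := by ring
  have hq9 : 2 < q := by
    have e1 : (256 : ℤ) * B * (Y : ℤ) ^ 2 ≤ X := by exact_mod_cast hY256
    have e2 : (X : ℤ) ≤ 32 * N j := by exact_mod_cast hN2 j
    have e3 : (1 : ℤ) ≤ B := by exact_mod_cast hB1
    have e4 : (48 : ℤ) ≤ Y := by exact_mod_cast (by omega : 48 ≤ Y)
    have e5 : (Y : ℤ) ^ 2 ≤ B * (Y : ℤ) ^ 2 := le_mul_of_one_le_left (by positivity) e3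
    have e6 : (48 : ℤ) ^ 2 ≤ (Y : ℤ) ^ 2 := pow_le_pow_left₀ (by norm_num) e4 2
    have : (2 : ℤ) < q := by linarith
    exact_mod_cast this
  have hqo : Odd q := hq1.odd_of_ne_two (by omega)
  have hqz : Odd (q : ℤ) := by exact_mod_cast hqo
  have hpz : Odd (p : ℤ) := by exact_mod_cast hpo
  have hfe : Even (f (b j) (c j) p) := by
    unfold f
    have h5 : Odd ((p : ℤ) ^ 2) := hpz.pow
    rcases Int.even_or_odd (b j) with hb | hb
    · have hc : Odd (c j) := Int.not_even_iff_odd.1 ((hbc j).1 hb)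
      exact (h5.add_even (hb.mul_right _)).add_odd hc
    · have hc : Even (c j) := by
        by_contra hc
        exact (Int.not_even_iff_odd.2 hb) ((hbc j).2 hc)
      exact (h5.add_odd (hb.mul hpz)).add hc
  have h6 : (N j : ℤ) = q + f (b j) (c j) p := by linarith
  have h7 : Odd (N j : ℤ) := by
    rw [h6]
    exact hqz.add_even hfe
  exact_mod_cast h7

end Pool.Agent.Results.MP_d9bc60_nt.CommonPrimesWithNeighbours
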