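import Mathlib
import Pool.Agent.Helper74.FB.PrimeQ

/-! # Representations `n = f(p) + q` such that `p` and `q` have almost prime neighbours

`f(x) = x² + b x + c`, `b` and `c` of opposite parity. For a positive proportion of the odd `n ≤ X` there are
many primes `p` with `n - f(p)` prime such that each of `T₁` given groups of shifts contains an `h` for which
`p + h` has at most two prime factors, and each of `T₂` given groups of shifts contains an `h` for which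
`n - f(p + h)` has at most two prime factors. -/

set_option autoImplicit false

namespace Pool.Agent.Results.MP_d9bc60_nt.RepresentationsWithNeighbours

open Finset

/-- `f(x) = x² + b x + c` -/
def f (b c x : ℤ) : ℤ := x ^ 2 + b * x + c

/-- the integer `z` is `> 1` and has at most two prime factors, counted with multiplicity -/
def AlmostPrime (z : ℤ) : Prop := ∃ q : ℕ, 1 < q ∧ (q : ℤ) = z ∧ q.primeFactorsList.length ≤ 2

/-- the families of distinct shifts contain `0`, and for every prime `p` there are residues `v`, `w` such that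
`p` divides none of the numbers `v + h₁ g i` and none of the numbers `w - f (v + h₂ g i)` -/
def Admissible {T₁ K₁ T₂ K₂ : ℕ} (b c : ℤ) (h₁ : Fin T₁ → Fin K₁ → ℤ) (h₂ : Fin T₂ → Fin K₂ → ℕ) : Prop :=
  Function.Injective (fun x : Fin T₁ × Fin K₁ => h₁ x.1 x.2) ∧
  Function.Injective (fun x : Fin T₂ × Fin K₂ => h₂ x.1 x.2) ∧
  (∃ g i, h₁ g i = 0) ∧ (∃ g i, h₂ g i = 0) ∧
  ∀ p : ℕ, p.Prime → ∃ v w : ℤ, (∀ g i, ¬ (p : ℤ) ∣ v + h₁ g i) ∧
    ∀ g i, ¬ (p : ℤ) ∣ w - f b c (v + h₂ g i)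

open Classical in
/-- the primes `p ∈ [Y / 16, Y]` such that `n = f(p) + q` with a prime `q`, `p + h₁ g (τ₁ g)` has at most two
prime factors for all `g`, and `n - f(p + h₂ g (τ₂ g))` has at most two prime factors for all `g` -/
noncomputable def representations {T₁ K₁ T₂ K₂ : ℕ} (b c : ℤ) (h₁ : Fin T₁ → Fin K₁ → ℤ)
    (h₂ : Fin T₂ → Fin K₂ → ℕ) (τ₁ : Fin T₁ → Fin K₁) (τ₂ : Fin T₂ → Fin K₂) (n Y : ℕ) : Finset ℕ :=
  (Icc 1 Y).filter (fun p : ℕ => Y ≤ 16 * p ∧ p.Prime ∧ (∃ q : ℕ, q.Prime ∧ (n : ℤ) = f b c p + q) ∧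
    (∀ g, AlmostPrime ((p : ℤ) + h₁ g (τ₁ g))) ∧ ∀ g, AlmostPrime (n - f b c (p + h₂ g (τ₂ g))))

/-- for one choice of shifts, one in every group, there are at least `B` such primes -/
def Many {T₁ K₁ T₂ K₂ : ℕ} (b c : ℤ) (h₁ : Fin T₁ → Fin K₁ → ℤ) (h₂ : Fin T₂ → Fin K₂ → ℕ) (Y : ℕ)
    (B : ℝ) (n : ℕ) : Prop :=
  ∃ (τ₁ : Fin T₁ → Fin K₁) (τ₂ : Fin T₂ → Fin K₂),
    B ≤ (((representations b c h₁ h₂ τ₁ τ₂ n Y).card : ℕ) : ℝ)

open Classical in
/-- **Representations with almost prime neighbours.** -/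
theorem result (T₁ T₂ : ℕ) (hT₁ : 1 ≤ T₁) (hT₂ : 1 ≤ T₂) : ∃ K₁ K₂ A : ℕ, 1 ≤ K₁ ∧ 1 ≤ K₂ ∧
    ∀ b c : ℤ, (Even b ↔ ¬ Even c) → ∀ (h₁ : Fin T₁ → Fin K₁ → ℤ) (h₂ : Fin T₂ → Fin K₂ → ℕ),
    Admissible b c h₁ h₂ →
    ∃ κ : ℝ, 0 < κ ∧ ∃ X₀ : ℕ, ∀ X : ℕ, X₀ ≤ X → ∀ Y : ℕ, Real.log X ^ A ≤ Y → (Y : ℝ) ^ 2 ≤ κ * X →
      κ * X ≤ (({n ∈ Icc 1 X | Odd n ∧ Many b c h₁ h₂ Y (Y / Real.log X ^ A) n}.card : ℕ) : ℝ) := by
  obtain ⟨K₁, K₂, A, hK₁, hK₂, H⟩ := Pool.Agent.Helper74.FB.primeQ T₁ T₂ hT₁ hT₂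
  refine ⟨K₁, K₂, A + 1, hK₁, hK₂, ?_⟩
  intro b c hbc h₁ h₂ hadm
  obtain ⟨hi₁, hi₂, hz₁, hz₂, ha⟩ := hadm
  set Q : Polynomial ℤ := -(Polynomial.X ^ 2 + Polynomial.C b * Polynomial.X + Polynomial.C c) with hQ
  have hev : ∀ x : ℤ, Q.eval x = -f b c x := by
    intro x
    simp [hQ, f]
  have hdeg : Q.natDegree = 2 := by
    rw [hQ, Polynomial.natDegree_neg]
    compute_degree!
  obtain ⟨κ, hκ, X₀, h3⟩ := H Q (by rw [hdeg]; norm_num) h₁ hi₁ h₂ hi₂ hz₁ hz₂ (by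
      intro p hp
      obtain ⟨v, w, hv, hw⟩ := ha p hp
      refine ⟨v, w, hv, fun g i hd => hw g i ?_⟩
      rw [hev] at hd
      rw [sub_eq_add_neg]
      exact hd)
  have tN : Filter.Tendsto (fun N : ℕ => (N : ℝ)) Filter.atTop Filter.atTop :=
    tendsto_natCast_atTop_atTop
  have hlog : Filter.Tendsto (fun N : ℕ => Real.log (N : ℝ)) Filter.atTop Filter.atTop :=
    Real.tendsto_log_atTop.comp tN
  obtain ⟨X₁, hX₁⟩ := Filter.eventually_atTop.1 (hlog.eventually_ge_atTop 48)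
  set B : ℕ := 1 + b.natAbs + c.natAbs with hB
  have hB1 : (1 : ℝ) ≤ B := by exact_mod_cast (by omega : 1 ≤ B)
  have hBpos : (0 : ℝ) < B := by linarith
  refine ⟨min κ (1 / (64 * B)), lt_min hκ (by positivity), max X₀ X₁, fun X hX Y hY1 hY2 => ?_⟩
  have hX0 : (0 : ℝ) ≤ X := Nat.cast_nonneg X
  have hlogX : 48 ≤ Real.log X := hX₁ X ((le_max_right _ _).trans hX)
  have hAA : Real.log X ^ A ≤ Real.log X ^ (A + 1) := pow_le_pow_right₀ (by linarith) (by omega)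
  have hY1' : Real.log X ^ A ≤ Y := hAA.trans hY1
  have hY48 : 48 ≤ Y := by
    have h4 : Real.log X ≤ Real.log X ^ (A + 1) := by
      calc Real.log X = Real.log X ^ 1 := (pow_one _).symm
        _ ≤ _ := pow_le_pow_right₀ (by linarith) (by omega)
    have : (48 : ℝ) ≤ Y := by linarith
    exact_mod_cast this
  have hYκ : (Y : ℝ) ^ 2 ≤ κ * X := hY2.trans (mul_le_mul_of_nonneg_right (min_le_left _ _) hX0)
  have hY64 : 64 * B * Y ^ 2 ≤ X := by
    have h3 : (Y : ℝ) ^ 2 ≤ 1 / (64 * B) * X :=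
      hY2.trans (mul_le_mul_of_nonneg_right (min_le_right _ _) hX0)
    have h4 : (64 : ℝ) * B * Y ^ 2 ≤ X := by
      calc (64 : ℝ) * B * Y ^ 2 ≤ 64 * B * (1 / (64 * B) * X) :=
            mul_le_mul_of_nonneg_left h3 (by positivity)
        _ = X := by field_simp
    exact_mod_cast h4
  refine (mul_le_mul_of_nonneg_right (min_le_left _ _) hX0).trans
    ((h3 X ((le_max_left _ _).trans hX) Y hY1' (by rw [hdeg]; exact hYκ)).trans ?_)
  rw [Nat.cast_le]
  apply card_le_card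
  intro N hN
  obtain ⟨hN1, hN2, hN3⟩ := mem_filter.1 hN
  obtain ⟨τ₁, τ₂, hcl⟩ := hN3
  have hLpos : 0 < Real.log X ^ A := by positivity
  have hYpos : (0 : ℝ) < Y := by exact_mod_cast (by omega : 0 < Y)
  have hne := lt_of_lt_of_le (div_pos hYpos hLpos) hcl
  rw [Nat.cast_pos, card_pos] at hne
  refine mem_filter.2 ⟨hN1, ?_, ?_⟩
  · obtain ⟨p, hp⟩ := hne
    obtain ⟨hp1, hp2, hp3, ⟨q, hq, hq2⟩, -, -⟩ := mem_filter.1 hp
    have hp4 := (mem_Icc.1 hp1).2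
    have hp5 := (mem_Icc.1 hp1).1
    rw [hev] at hq2
    have hpo : Odd p := hp3.odd_of_ne_two (by omega)
    have hfb : f b c p ≤ B * (Y : ℤ) ^ 2 := by
      have e1 : (1 : ℤ) ≤ p := by exact_mod_cast hp5
      have e2 : (p : ℤ) ≤ Y := by exact_mod_cast hp4
      have e3 : b ≤ |b| := le_abs_self b
      have e4 : c ≤ |c| := le_abs_self c
      have e5 : (B : ℤ) = 1 + |b| + |c| := by
        rw [hB]
        push_cast
        rfl
      have e6 : (p : ℤ) ^ 2 ≤ (Y : ℤ) ^ 2 := pow_le_pow_left₀ (by linarith) e2 2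
      have e7 : b * p ≤ |b| * (Y : ℤ) ^ 2 := by
        calc b * p ≤ |b| * p := mul_le_mul_of_nonneg_right e3 (by linarith)
          _ ≤ |b| * (Y : ℤ) ^ 2 := mul_le_mul_of_nonneg_left (by nlinarith) (abs_nonneg b)
      have e8 : c ≤ |c| * (Y : ℤ) ^ 2 := by
        calc c ≤ |c| * 1 := by rw [mul_one]; exact e4
          _ ≤ |c| * (Y : ℤ) ^ 2 := mul_le_mul_of_nonneg_left (by nlinarith) (abs_nonneg c)
      unfold f
      rw [e5]
      linarith
    have hq9 : 2 < q := by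
      have e1 : (64 : ℤ) * B * (Y : ℤ) ^ 2 ≤ X := by exact_mod_cast hY64
      have e2 : (X : ℤ) ≤ 32 * N := by exact_mod_cast hN2
      have e3 : (1 : ℤ) ≤ B := by exact_mod_cast (by omega : 1 ≤ B)
      have e4 : (48 : ℤ) ≤ Y := by exact_mod_cast hY48
      have e5 : (Y : ℤ) ^ 2 ≤ B * (Y : ℤ) ^ 2 := le_mul_of_one_le_left (by positivity) e3
      have e6 : (48 : ℤ) ^ 2 ≤ (Y : ℤ) ^ 2 := pow_le_pow_left₀ (by norm_num) e4 2
      have : (2 : ℤ) < q := by linarith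
      exact_mod_cast this
    have hqo : Odd q := hq.odd_of_ne_two (by omega)
    have hqz : Odd (q : ℤ) := by exact_mod_cast hqo
    have hpz : Odd (p : ℤ) := by exact_mod_cast hpo
    have hfe : Even (f b c p) := by
      unfold f
      have h5 : Odd ((p : ℤ) ^ 2) := hpz.pow
      rcases Int.even_or_odd b with hb | hb
      · have hc : Odd c := Int.not_even_iff_odd.1 (hbc.1 hb)
        exact (h5.add_even (hb.mul_right _)).add_odd hc
      · have hc : Even c := by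
          by_contra hc
          exact (Int.not_even_iff_odd.2 hb) (hbc.2 hc)
        exact (h5.add_odd (hb.mul hpz)).add hc
    have h6 : (N : ℤ) = q + f b c p := by linarith
    have h7 : Odd (N : ℤ) := by
      rw [h6]
      exact hqz.add_even hfe
    exact_mod_cast h7
  · refine ⟨τ₁, τ₂, ?_⟩
    refine (div_le_div_of_nonneg_left hYpos.le hLpos hAA).trans (hcl.trans ?_)
    rw [Nat.cast_le]
    apply card_le_card
    intro p hp
    obtain ⟨hp1, hp2, hp3, ⟨q, hq, hq2⟩, hp4, hp5⟩ := mem_filter.1 hp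
    rw [hev] at hq2
    unfold representations
    refine mem_filter.2 ⟨hp1, hp2, hp3, ⟨q, hq, by linarith⟩, fun g => hp4 g, fun g => ?_⟩
    obtain ⟨z, hz1, hz2, hz3⟩ := hp5 g
    rw [hev] at hz2
    exact ⟨z, hz1, by rw [hz2]; ring, hz3⟩

end Pool.Agent.Results.MP_d9bc60_nt.RepresentationsWithNeighbours
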