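import Mathlib
import Pool.Agent.Helper74.FB.Dense

/-! # Representations `n = f i (p) + q` by several polynomials with the same prime `p` of an arbitrary dense set

`f i (x) = x² + b i x + c i`, `i ∈ I`, are sufficiently many monic quadratic polynomials which miss a class modulo
every prime at every class prime to it, and `𝒬` is any set of primes `≤ Y` with at least `c Y / log Y` elements. For a
positive proportion of the `J`-tuples of odd `n j ≤ X` there are `r` of the polynomials and many `p ∈ 𝒬` such that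
all the numbers `n j - f i (p)`, for all `j` and these `r` polynomials `f i`, are prime. -/

set_option autoImplicit false

namespace Pool.Agent.Results.MP_d9bc60_nt.SeveralPolynomialsOnePrime

open Finset

/-- `f(x) = x² + b x + c` -/
def f (b c x : ℤ) : ℤ := x ^ 2 + b * x + c

/-- `n = f(p) + q` with a prime `q` -/
def Rep (b c : ℤ) (n p : ℕ) : Prop := ∃ q : ℕ, q.Prime ∧ (n : ℤ) = f b c p + q

/-- the polynomials `x² + b i x + c i`, `i ∈ I`, are distinct, `b i` and `c i` have opposite parity, and for every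
prime `p` and every `u` prime to `p` the numbers `f i (u)` miss a class modulo `p` -/
def Admissible (I : Finset ℕ) (b c : ℕ → ℤ) : Prop :=
  (∀ i ∈ I, ∀ i' ∈ I, b i = b i' → c i = c i' → i = i') ∧ (∀ i ∈ I, Even (b i) ↔ ¬ Even (c i)) ∧
    ∀ p : ℕ, p.Prime → ∀ u : ℤ, ¬ (p : ℤ) ∣ u → ∃ w : ℤ, ∀ i ∈ I, ¬ (p : ℤ) ∣ w - f (b i) (c i) u

open Classical in
/-- the `p ∈ 𝒬` which represent all the `n j` by all the polynomials `f i`, `i ∈ P` -/
noncomputable def common {J : ℕ} (b c : ℕ → ℤ) (P : Finset ℕ) (𝒬 : Finset ℕ) (n : Fin J → ℕ) : Finset ℕ :=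
  𝒬.filter (fun p => ∀ j, ∀ i ∈ P, Rep (b i) (c i) (n j) p)

/-- for `r` of the polynomials there are at least `B` such `p` -/
def Many {J : ℕ} (I : Finset ℕ) (b c : ℕ → ℤ) (r : ℕ) (𝒬 : Finset ℕ) (B : ℝ) (n : Fin J → ℕ) : Prop :=
  ∃ P ⊆ I, P.card = r ∧ B ≤ (((common b c P 𝒬 n).card : ℕ) : ℝ)

open Classical in
/-- **Several polynomials and one prime of an arbitrary dense set of primes.** -/
theorem result (J r : ℕ) (hr : 1 ≤ r) : ∃ K A : ℕ, ∀ (I : Finset ℕ) (b c : ℕ → ℤ), K ≤ I.card →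
    Admissible I b c → ∀ d : ℝ, 0 < d →
    ∃ κ : ℝ, 0 < κ ∧ ∃ X₀ : ℕ, ∀ X : ℕ, X₀ ≤ X → ∀ Y : ℕ, Real.log X ^ A ≤ Y → (Y : ℝ) ^ 2 ≤ κ * X →
      ∀ 𝒬 ⊆ (Icc 1 Y).filter Nat.Prime, d * (Y / Real.log Y) ≤ (𝒬.card : ℝ) →
      κ * (X : ℝ) ^ J ≤
        (({n ∈ Fintype.piFinset (fun _ : Fin J => Icc 1 X) |
          (∀ j, Odd (n j)) ∧ Many I b c r 𝒬 (Y / Real.log X ^ A) n}.card : ℕ) : ℝ) := by
  obtain ⟨K, A, h1⟩ := Pool.Agent.Helper74.FB.denseJ J r hr
  refine ⟨K, A + 1, fun I b c hI hadm d hd => ?_⟩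
  obtain ⟨hdist, hpar, hcov⟩ := hadm
  obtain ⟨Q, hQ⟩ : ∃ Q : Fin J → ℕ → Polynomial ℤ, Q = fun _ i =>
    -(Polynomial.X ^ 2 + Polynomial.C (b i) * Polynomial.X + Polynomial.C (c i)) := ⟨_, rfl⟩
  have hev : ∀ j i, ∀ x : ℤ, (Q j i).eval x = -f (b i) (c i) x := by
    intro j i x
    simp [hQ, f]
  have hdeg : ∀ j i, (Q j i).natDegree = 2 := by
    intro j i
    rw [hQ]
    simp only
    rw [Polynomial.natDegree_neg]
    compute_degree!
  obtain ⟨κ, hκ, X₀, h3⟩ := h1 I hI Q (fun j i _ => by rw [hdeg]; norm_num) (by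
      intro j i hi i' hi' heq
      have e0 : (Q j i).eval 0 = (Q j i').eval 0 := by rw [heq]
      have e1 : (Q j i).eval 1 = (Q j i').eval 1 := by rw [heq]
      rw [hev, hev] at e0 e1
      unfold f at e0 e1
      exact hdist i hi i' hi' (by linarith) (by linarith)) (by
      intro p hp u hu j
      obtain ⟨w, hw⟩ := hcov p hp u hu
      refine ⟨w, fun i hi hd => hw i hi ?_⟩
      rw [hev] at hd
      rw [sub_eq_add_neg]
      exact hd) d hd
  have tN : Filter.Tendsto (fun N : ℕ => (N : ℝ)) Filter.atTop Filter.atTop :=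
    tendsto_natCast_atTop_atTop
  have hlog : Filter.Tendsto (fun N : ℕ => Real.log (N : ℝ)) Filter.atTop Filter.atTop :=
    Real.tendsto_log_atTop.comp tN
  obtain ⟨X₁, hX₁⟩ := Filter.eventually_atTop.1 (hlog.eventually_ge_atTop 48)
  obtain ⟨B, hB1, hB⟩ : ∃ B : ℕ, 1 ≤ B ∧ ∀ i ∈ I, 1 + (b i).natAbs + (c i).natAbs ≤ B := by
    refine ⟨1 + ∑ i ∈ I, (1 + (b i).natAbs + (c i).natAbs), by omega, fun i hi => ?_⟩
    have := single_le_sum (f := fun i => 1 + (b i).natAbs + (c i).natAbs) (fun _ _ => Nat.zero_le _) hi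
    omega
  have hB1r : (1 : ℝ) ≤ B := by exact_mod_cast hB1
  have hBpos : (0 : ℝ) < B := by linarith
  refine ⟨min κ (1 / (64 * B)), lt_min hκ (by positivity), max X₀ X₁, fun X hX Y hY1 hY2 𝒬 h𝒬 hcard => ?_⟩
  have hX0 : (0 : ℝ) ≤ X := Nat.cast_nonneg X
  have hlogX : 48 ≤ Real.log X := hX₁ X ((le_max_right _ _).trans hX)
  have hAA : Real.log X ^ A ≤ Real.log X ^ (A + 1) := pow_le_pow_right₀ (by linarith) (by omega)
  have hY1' : Real.log X ^ A ≤ Y := hAA.trans hY1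
  have hY48 : 48 ≤ Y := by
    have h4 : Real.log X ≤ Real.log X ^ (A + 1) := by
      calc Real.log X = Real.log X ^ 1 := (pow_one _).symm
        _ ≤ _ := pow_le_pow_right₀ (by linarith) (by omega)
    have : (48 : ℝ) ≤ Y := by linarith
    exact_mod_cast this
  have hYκ : (Y : ℝ) ^ 2 ≤ κ * X := hY2.trans (mul_le_mul_of_nonneg_right (min_le_left _ _) hX0)
  have hYκ1 : (Y : ℝ) ≤ κ * X := by
    refine le_trans ?_ hYκ
    have : (1 : ℝ) ≤ Y := by exact_mod_cast (by omega : 1 ≤ Y)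
    nlinarith
  have hY64 : 64 * B * Y ^ 2 ≤ X := by
    have h3 : (Y : ℝ) ^ 2 ≤ 1 / (64 * B) * X :=
      hY2.trans (mul_le_mul_of_nonneg_right (min_le_right _ _) hX0)
    have h4 : (64 : ℝ) * B * Y ^ 2 ≤ X := by
      calc (64 : ℝ) * B * Y ^ 2 ≤ 64 * B * (1 / (64 * B) * X) :=
            mul_le_mul_of_nonneg_left h3 (by positivity)
        _ = X := by field_simp
    exact_mod_cast h4
  refine (mul_le_mul_of_nonneg_right (min_le_left _ _) (by positivity)).trans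
    ((h3 X ((le_max_left _ _).trans hX) Y hY1' hYκ1 (fun j i _ => by rw [hdeg]; exact hYκ) 𝒬 h𝒬 hcard).trans ?_)
  rw [Nat.cast_le]
  apply card_le_card
  intro N hN
  obtain ⟨hN1, hN2, P, hP, hPc, hcl⟩ := mem_filter.1 hN
  have hLpos : 0 < Real.log X := by linarith
  have hYpos : (0 : ℝ) < Y := by exact_mod_cast (by omega : 0 < Y)
  have hcl1 : (Y : ℝ) / Real.log X ^ A ≤ (((common b c P 𝒬 N).card : ℕ) : ℝ) := by
    refine hcl.trans ?_
    rw [Nat.cast_le]
    apply card_le_card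
    intro p hp
    obtain ⟨hp1, hp2⟩ := mem_filter.1 hp
    unfold common
    refine mem_filter.2 ⟨hp1, fun j i hi => ?_⟩
    obtain ⟨q, hq, hq2⟩ := hp2 j i hi
    rw [hev] at hq2
    exact ⟨q, hq, by linarith⟩
  have hcl2 : (Y : ℝ) / Real.log X ^ (A + 1) ≤ (((common b c P 𝒬 N).card : ℕ) : ℝ) :=
    (div_le_div_of_nonneg_left hYpos.le (by positivity) hAA).trans hcl1
  refine mem_filter.2 ⟨hN1, ?_, P, hP, hPc, hcl2⟩
  -- an odd element
  have h48 : (48 : ℝ) ≤ (((common b c P 𝒬 N).card : ℕ) : ℝ) := by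
    refine le_trans ?_ hcl1
    rw [le_div_iff₀ (by positivity)]
    calc (48 : ℝ) * Real.log X ^ A ≤ Real.log X * Real.log X ^ A :=
          mul_le_mul_of_nonneg_right hlogX (by positivity)
      _ = Real.log X ^ (A + 1) := by ring
      _ ≤ Y := hY1
  have h48n : 48 ≤ (common b c P 𝒬 N).card := by exact_mod_cast h48
  obtain ⟨p, hp, hp2⟩ : ∃ p ∈ common b c P 𝒬 N, p ≠ 2 := by
    by_contra hcon
    push Not at hcon
    have h5 : common b c P 𝒬 N ⊆ {2} := fun p hp => mem_singleton.2 (hcon p hp)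
    have h6 := card_le_card h5
    rw [card_singleton] at h6
    omega
  unfold common at hp
  obtain ⟨hpQ, hrep⟩ := mem_filter.1 hp
  obtain ⟨hp4, hp3⟩ := mem_filter.1 (h𝒬 hpQ)
  have hpY := (mem_Icc.1 hp4).2
  have hp1 := (mem_Icc.1 hp4).1
  obtain ⟨i, hi⟩ : P.Nonempty := by
    rw [← card_pos]
    omega
  intro j
  obtain ⟨q, hq1, hq2⟩ := hrep j i hi
  have hpo : Odd p := hp3.odd_of_ne_two hp2
  have hfb : f (b i) (c i) p ≤ B * (Y : ℤ) ^ 2 := by
    have e1 : (1 : ℤ) ≤ p := by exact_mod_cast hp1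
    have e2 : (p : ℤ) ≤ Y := by exact_mod_cast hpY
    have e3 : b i ≤ |b i| := le_abs_self _
    have e4 : c i ≤ |c i| := le_abs_self _
    have e5 : 1 + |b i| + |c i| ≤ (B : ℤ) := by
      rw [Int.abs_eq_natAbs, Int.abs_eq_natAbs]
      exact_mod_cast hB i (hP hi)
    have e6 : (p : ℤ) ^ 2 ≤ (Y : ℤ) ^ 2 := pow_le_pow_left₀ (by linarith) e2 2
    have e9 : (1 : ℤ) ≤ (p : ℤ) ^ 2 := by nlinarith
    have e7 : b i * p ≤ |b i| * (p : ℤ) ^ 2 := by
      calc b i * p ≤ |b i| * p := mul_le_mul_of_nonneg_right e3 (by linarith)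
        _ ≤ |b i| * (p : ℤ) ^ 2 := mul_le_mul_of_nonneg_left (by nlinarith) (abs_nonneg _)
    have e8 : c i ≤ |c i| * (p : ℤ) ^ 2 := by
      calc c i ≤ |c i| * 1 := by rw [mul_one]; exact e4
        _ ≤ |c i| * (p : ℤ) ^ 2 := mul_le_mul_of_nonneg_left e9 (abs_nonneg _)
    unfold f
    calc (p : ℤ) ^ 2 + b i * p + c i ≤ (1 + |b i| + |c i|) * (p : ℤ) ^ 2 := by linarith
      _ ≤ B * (p : ℤ) ^ 2 := mul_le_mul_of_nonneg_right e5 (by positivity)
      _ ≤ B * (Y : ℤ) ^ 2 := mul_le_mul_of_nonneg_left e6 (by positivity)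
  have hq9 : 2 < q := by
    have e1 : (64 : ℤ) * B * (Y : ℤ) ^ 2 ≤ X := by exact_mod_cast hY64
    have e2 : (X : ℤ) ≤ 32 * N j := by exact_mod_cast hN2 j
    have e3 : (1 : ℤ) ≤ B := by exact_mod_cast hB1
    have e4 : (48 : ℤ) ≤ Y := by exact_mod_cast hY48
    have e5 : (Y : ℤ) ^ 2 ≤ B * (Y : ℤ) ^ 2 := le_mul_of_one_le_left (by positivity) e3
    have e6 : (48 : ℤ) ^ 2 ≤ (Y : ℤ) ^ 2 := pow_le_pow_left₀ (by norm_num) e4 2
    have : (2 : ℤ) < q := by linarith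
    exact_mod_cast this
  have hqo : Odd q := hq1.odd_of_ne_two (by omega)
  have hqz : Odd (q : ℤ) := by exact_mod_cast hqo
  have hpz : Odd (p : ℤ) := by exact_mod_cast hpo
  have hfe : Even (f (b i) (c i) p) := by
    unfold f
    have h5 : Odd ((p : ℤ) ^ 2) := hpz.pow
    rcases Int.even_or_odd (b i) with hb | hb
    · have hc : Odd (c i) := Int.not_even_iff_odd.1 ((hpar i (hP hi)).1 hb)
      exact (h5.add_even (hb.mul_right _)).add_odd hc
    · have hc : Even (c i) := by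
        by_contra hc
        exact (Int.not_even_iff_odd.2 hb) ((hpar i (hP hi)).2 hc)
      exact (h5.add_odd (hb.mul hpz)).add hc
  have h6 : (N j : ℤ) = q + f (b i) (c i) p := by linarith
  have h7 : Odd (N j : ℤ) := by
    rw [h6]
    exact hqz.add_even hfe
  exact_mod_cast h7

end Pool.Agent.Results.MP_d9bc60_nt.SeveralPolynomialsOnePrime
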